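import Pool.Agent.H7.KQ.Stmts

/-!
# Row TRV of the board `kq`: cliques and transversals
-/

set_option autoImplicit false

open Finset

namespace Pool.KQ

open Pool.Agent.H23.KT Pool.Agent.H46.KW

theorem trv_mem {V : Type} (G : SimpleGraph V) {b : ℕ} (P : Fin b → Finset V) (f : Fin b → V) :
    f ∈ trv G P ↔ (∀ i, f i ∈ P i) ∧ ∀ i j, i ≠ j → G.Adj (f i) (f j) := by
  classical
  unfold trv
  rw [mem_filter, Fintype.mem_piFinset]

theorem trv_map {V : Type} [DecidableEq V] (G : SimpleGraph V) {b : ℕ} (P : Fin b → Finset V)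
    (f : Fin b → V) (hf : f ∈ trv G P) : univ.image f ∈ clq G (un P) b := by
  rw [trv_mem] at hf
  have hinj : Function.Injective f := by
    intro i j h
    by_contra hne
    exact (hf.2 i j hne).ne h
  rw [mem_clq]
  refine ⟨?_, ?_, ?_⟩
  · intro x hx
    obtain ⟨i, _, rfl⟩ := mem_image.1 hx
    exact mem_biUnion.2 ⟨i, mem_univ i, hf.1 i⟩
  · rw [card_image_of_injective _ hinj, card_univ, Fintype.card_fin]
  · intro x hx y hy hxy
    rw [mem_coe, mem_image] at hx hy
    obtain ⟨i, _, rfl⟩ := hx
    obtain ⟨j, _, rfl⟩ := hy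
    exact hf.2 i j (fun h => hxy (by rw [h]))

theorem trv_surj {V : Type} [DecidableEq V] (G : SimpleGraph V) {b : ℕ} (P : Fin b → Finset V)
    (hP : Par G P) (S : Finset V) (hS : S ∈ clq G (un P) b) :
    ∃ f ∈ trv G P, univ.image f = S := by
  rw [mem_clq] at hS
  obtain ⟨h1, h2, h3⟩ := hS
  have hle : ∀ i, (S ∩ P i).card ≤ 1 := by
    intro i
    rw [card_le_one]
    intro x hx y hy
    rw [mem_inter] at hx hy
    by_contra hne
    exact hP.ind i x hx.2 y hy.2 (h3 hx.1 hy.1 hne)
  have hsum : ∑ i, (S ∩ P i).card = b := by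
    rw [← card_biUnion]
    · refine Eq.trans ?_ h2
      congr 1
      ext x
      rw [mem_biUnion]
      constructor
      · rintro ⟨i, _, hx⟩
        exact (mem_inter.1 hx).1
      · intro hx
        obtain ⟨i, _, hi⟩ := mem_biUnion.1 (h1 hx)
        exact ⟨i, mem_univ i, mem_inter.2 ⟨hx, hi⟩⟩
    · intro i _ j _ hij
      exact (hP.dis i j hij).mono inter_subset_right inter_subset_right
  have hone : ∀ i, (S ∩ P i).card = 1 := by
    have h4 : ∑ i : Fin b, (S ∩ P i).card = ∑ _i : Fin b, 1 := by
      rw [hsum]; simp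
    have h5 := (sum_eq_sum_iff_of_le (fun i _ => hle i)).1 h4
    intro i
    exact h5 i (mem_univ i)
  have hex : ∀ i, ∃ x, x ∈ S ∩ P i := by
    intro i
    have : (S ∩ P i).Nonempty := by
      rw [← card_pos, hone i]
      exact one_pos
    exact this
  choose f hf using hex
  have hfS : ∀ i, f i ∈ S := fun i => (mem_inter.1 (hf i)).1
  have hfP : ∀ i, f i ∈ P i := fun i => (mem_inter.1 (hf i)).2
  have hadj : ∀ i j, i ≠ j → G.Adj (f i) (f j) := by
    intro i j hij
    refine h3 (hfS i) (hfS j) ?_
    intro h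
    have h4 := hP.dis i j hij
    exact (disjoint_left.1 h4) (hfP i) (by rw [h]; exact hfP j)
  refine ⟨f, (trv_mem G P f).2 ⟨hfP, hadj⟩, ?_⟩
  apply eq_of_subset_of_card_le
  · intro x hx
    obtain ⟨i, _, rfl⟩ := mem_image.1 hx
    exact hfS i
  · have hinj : Function.Injective f := by
      intro i j h
      by_contra hne
      exact (hadj i j hne).ne h
    rw [card_image_of_injective _ hinj, card_univ, Fintype.card_fin, h2]

theorem trv_inj {V : Type} [DecidableEq V] (G : SimpleGraph V) {b : ℕ} (P : Fin b → Finset V)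
    (hP : Par G P) : Set.InjOn (fun f : Fin b → V => univ.image f) (trv G P : Set (Fin b → V)) := by
  intro f hf g hg h
  rw [mem_coe, trv_mem] at hf hg
  funext i
  have h1 : f i ∈ univ.image g := by
    have h2 : univ.image f = univ.image g := h
    rw [← h2]
    exact mem_image_of_mem f (mem_univ i)
  obtain ⟨j, _, hj⟩ := mem_image.1 h1
  by_cases hij : i = j
  · rw [← hj, hij]
  · exfalso
    exact (disjoint_left.1 (hP.dis i j hij)) (hf.1 i) (by rw [← hj]; exact hg.1 j)

/-- The row (`trv` is the name of a definition, so the theorem is `trv_thm`). -/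
theorem trv_thm : TRVStmt := by
  intro V _ G b P hP
  constructor
  · have h1 : kc G (un P) b = (clq G (un P) b).card := rfl
    rw [h1]
    symm
    exact card_nbij (fun f => univ.image f) (fun f hf => trv_map G P f hf) (trv_inj G P hP)
      (fun S hS => by
        obtain ⟨f, hf, h⟩ := trv_surj G P hP S hS
        exact ⟨f, hf, h⟩)
  · intro F
    symm
    exact sum_nbij (fun f => univ.image f) (fun f hf => trv_map G P f hf) (trv_inj G P hP)
      (fun S hS => by
        obtain ⟨f, hf, h⟩ := trv_surj G P hP S hS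
        exact ⟨f, hf, h⟩) (fun f _ => rfl)

end Pool.KQ
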